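import Pool.Agent.Run7.h342.MD.Stm

/-!
Piece INC of the project MD (helper342): the polynomials vanishing on all degenerate coefficient
vectors form a principal ideal generated by an irreducible polynomial, the resultant.
-/

namespace Run7.h234.MD

open MvPolynomial Run7.h342.MD

noncomputable section

variable {n d : ℕ}

/-- `a • b` corrected at the coordinates `(i, s)`. -/
def psi {R : Type} [CommRing R] (s : Sym (Fin n) d) (a : R) (b : Ix n d → R) (t : Fin n → R) :
    Ix n d → R :=
  fun q => a * b q - if q.2 = s then ev b t q.1 else 0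

theorem map_ev {R S : Type} [CommRing R] [CommRing S] (f : R →+* S) (b : Ix n d → R)
    (t : Fin n → R) (i : Fin n) : f (ev b t i) = ev (fun q => f (b q)) (fun j => f (t j)) i := by
  unfold ev
  rw [map_sum]
  refine Finset.sum_congr rfl fun s _ => ?_
  rw [map_mul, map_multiset_prod, Multiset.map_map]
  rfl

theorem map_psi {R S : Type} [CommRing R] [CommRing S] (f : R →+* S) (s : Sym (Fin n) d) (a : R)
    (b : Ix n d → R) (t : Fin n → R) (q : Ix n d) :
    f (psi s a b t q) = psi s (f a) (fun q => f (b q)) (fun j => f (t j)) q := by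
  unfold psi
  rw [map_sub, map_mul]
  split_ifs with h
  · rw [map_ev]
  · rw [map_zero]

/-- the symmetric power of `j` -/
def sj (d : ℕ) (j : Fin n) : Sym (Fin n) d := Sym.replicate d j

theorem prod_sj {R : Type} [CommRing R] (j : Fin n) (t : Fin n → R) :
    (((sj d j : Sym (Fin n) d) : Multiset (Fin n)).map t).prod = t j ^ d := by
  unfold sj
  rw [Sym.coe_replicate, Multiset.map_replicate, Multiset.prod_replicate]

theorem ev_psi {R : Type} [CommRing R] (j : Fin n) (b : Ix n d → R) (t : Fin n → R) :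
    ev (psi (sj d j) (t j ^ d) b t) t = 0 := by
  funext i
  have h1 : ev (psi (sj d j) (t j ^ d) b t) t i =
      t j ^ d * ev b t i - ev b t i * t j ^ d := by
    conv_lhs => unfold ev psi
    simp only [sub_mul, Finset.sum_sub_distrib]
    congr 1
    · conv_rhs => unfold ev
      rw [Finset.mul_sum]
      refine Finset.sum_congr rfl fun s _ => ?_
      ring
    · rw [Finset.sum_eq_single (sj d j)]
      · rw [if_pos rfl, prod_sj]
      · intro s _ hs
        rw [if_neg hs, zero_mul]
      · intro h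
        exact absurd (Finset.mem_univ _) h
  rw [h1, Pi.zero_apply]
  ring

section

variable (n d) (k : Type) [Field k]

/-- the generic degenerate vector with a zero whose coordinate `j` is not zero -/
def gp (j : Fin n) : Ix n d → MvPolynomial (Ix n d ⊕ Fin n) k :=
  psi (sj d j) (X (Sum.inr j) ^ d) (fun q => X (Sum.inl q)) (fun i => X (Sum.inr i))

/-- substitution of the generic degenerate vector -/
def F (j : Fin n) : MvPolynomial (Ix n d) k →ₐ[k] MvPolynomial (Ix n d ⊕ Fin n) k :=
  aeval (gp n d k j)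

end

variable {k : Type} [Field k]

theorem L1 {κ : Type} [Field κ] [Algebra k κ] (c : Ix n d → κ) (x : Fin n → κ) (j : Fin n)
    (hx : x j ≠ 0) (hc : ev c x = 0) (P : MvPolynomial (Ix n d) k) (hP : F n d k j P = 0) :
    aeval c P = 0 := by
  have h1 := congrArg (aeval (Sum.elim (fun q => (x j ^ d)⁻¹ * c q) x) :
    MvPolynomial (Ix n d ⊕ Fin n) k →ₐ[k] κ) hP
  unfold F at h1
  rw [comp_aeval_apply, map_zero] at h1
  rw [← h1]
  congr 2
  funext q
  unfold gp
  have h2 := map_psi (aeval (Sum.elim (fun q => (x j ^ d)⁻¹ * c q) x) :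
    MvPolynomial (Ix n d ⊕ Fin n) k →ₐ[k] κ).toRingHom (sj d j) (X (Sum.inr j) ^ d)
      (fun q : Ix n d => (X (Sum.inl q) : MvPolynomial (Ix n d ⊕ Fin n) k))
      (fun i => X (Sum.inr i)) q
  refine Eq.trans ?_ h2.symm
  simp only [AlgHom.toRingHom_eq_coe, RingHom.coe_coe, map_pow, aeval_X, Sum.elim_inl,
    Sum.elim_inr]
  have h3 : ev (fun q : Ix n d => (x j ^ d)⁻¹ * c q) (fun i => x i) q.1 = 0 := by
    have h4 := ev_smul ((x j ^ d)⁻¹) c x
    rw [hc, smul_zero] at h4
    exact congrFun h4 q.1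
  unfold psi
  rw [h3, ite_self, sub_zero, ← mul_assoc, mul_inv_cancel₀ (pow_ne_zero _ hx), one_mul]

theorem L2 [Infinite k] (i₀ j : Fin n) (P : MvPolynomial (Ix n d) k)
    (h : ∀ (b : Ix n d → k) (t : Fin n → k), t j ≠ 0 → t i₀ ≠ 0 →
      eval (psi (sj d j) (t j ^ d) b t) P = 0) : F n d k j P = 0 := by
  have h1 : F n d k j P * (X (Sum.inr j) * X (Sum.inr i₀)) = 0 := by
    apply MvPolynomial.funext
    intro v
    rw [map_mul, map_mul, map_zero, eval_X, eval_X]
    by_cases h2 : v (Sum.inr j) = 0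
    · rw [h2, zero_mul, mul_zero]
    by_cases h3 : v (Sum.inr i₀) = 0
    · rw [h3, mul_zero, mul_zero]
    have h4 : eval v (F n d k j P) = 0 := by
      unfold F
      rw [eval_aeval]
      have h5 := h (fun q => v (Sum.inl q)) (fun i => v (Sum.inr i)) h2 h3
      rw [← h5]
      congr 2
      funext q
      unfold gp
      rw [map_psi]
      simp only [map_pow, eval_X]
    rw [h4, zero_mul]
  rcases mul_eq_zero.1 h1 with h2 | h2
  · exact h2
  · rcases mul_eq_zero.1 h2 with h3 | h3
    · exact absurd h3 (X_ne_zero _)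
    · exact absurd h3 (X_ne_zero _)

theorem key [Infinite k] (i₀ j : Fin n) (P : MvPolynomial (Ix n d) k) (hP : F n d k i₀ P = 0) :
    F n d k j P = 0 := by
  refine L2 i₀ j P fun b t _ h2 => ?_
  have h3 := L1 (κ := k) (psi (sj d j) (t j ^ d) b t) t i₀ h2 (ev_psi j b t) P hP
  rwa [aeval_eq_eval] at h3

theorem van [Infinite k] (i₀ : Fin n) (P : MvPolynomial (Ix n d) k) :
    F n d k i₀ P = 0 ↔ ∀ c : Ix n d → k, ¬ Nondeg c → eval c P = 0 := by
  constructor
  · intro h c hc
    unfold Nondeg at hc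
    push Not at hc
    obtain ⟨x, hx, hx0⟩ := hc
    obtain ⟨j, hj⟩ := Function.ne_iff.1 hx0
    have h3 := L1 (κ := k) c x j hj hx P (key i₀ j P h)
    rwa [aeval_eq_eval] at h3
  · intro h
    refine L2 i₀ i₀ P fun b t h1 _ => ?_
    refine h _ fun h2 => ?_
    have h3 := h2 t (ev_psi i₀ b t)
    rw [h3] at h1
    exact h1 rfl

/-- The ideal is not zero: transcendence degree. -/
theorem nonzero [Infinite k] (i₀ : Fin n) :
    ∃ P : MvPolynomial (Ix n d) k, P ≠ 0 ∧ F n d k i₀ P = 0 := by
  classical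
  set q₀ : Ix n d := (i₀, sj d i₀) with hq₀
  set b2 : Ix n d → MvPolynomial {q : Ix n d // q ≠ q₀} k := fun q =>
    if h : q.2 = sj d i₀ then 0 else X ⟨q, fun h' => h (congrArg Prod.snd h')⟩ with hb2
  set t2 : Fin n → MvPolynomial {q : Ix n d // q ≠ q₀} k := fun i =>
    if h : i = i₀ then 1 else X ⟨(i, sj d i₀), fun h' => h (congrArg Prod.fst h')⟩ with ht2
  have h1 : ¬ AlgebraicIndependent k (psi (sj d i₀) 1 b2 t2) := by
    intro h2
    have h3 := h2.cardinalMk_le_trdeg
    rw [MvPolynomial.trdeg_of_isDomain, Cardinal.lift_id] at h3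
    rw [Cardinal.mk_fintype, Cardinal.mk_fintype, Nat.cast_le] at h3
    have h4 : Fintype.card {q : Ix n d // q ≠ q₀} < Fintype.card (Ix n d) :=
      Fintype.card_subtype_lt (x := q₀) (fun h => h rfl)
    omega
  rw [algebraicIndependent_iff] at h1
  push Not at h1
  obtain ⟨P, hP, hP0⟩ := h1
  refine ⟨P, hP0, L2 i₀ i₀ P fun b t ht _ => ?_⟩
  set c := psi (sj d i₀) (t i₀ ^ d) b t with hc
  have h2 : ev c t = 0 := ev_psi i₀ b t
  set t' : Fin n → k := (t i₀)⁻¹ • t with ht'
  have h3 : ev c t' = 0 := by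
    rw [ht', ev_scale, h2, smul_zero]
  have h4 : t' i₀ = 1 := inv_mul_cancel₀ ht
  set v : {q : Ix n d // q ≠ q₀} → k := fun q => if q.1.2 = sj d i₀ then t' q.1.1 else c q.1
    with hv
  have h5 : eval v (aeval (psi (sj d i₀) 1 b2 t2) P) = 0 := by rw [hP, map_zero]
  rw [eval_aeval] at h5
  rw [← h5]
  congr 2
  funext q
  rw [map_psi, map_one]
  have h6 : (fun i => eval v (t2 i)) = t' := by
    funext i
    rw [ht2]
    dsimp only
    split_ifs with h
    · rw [map_one, h, h4]
    · rw [eval_X, hv]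
      dsimp only
      rw [if_pos rfl]
  have h7 : (fun q => eval v (b2 q)) = fun q => if q.2 = sj d i₀ then 0 else c q := by
    funext q
    rw [hb2]
    dsimp only
    split_ifs with h
    · rw [map_zero]
    · rw [eval_X, hv]
      dsimp only
      rw [if_neg h]
  rw [h6, h7]
  have h8 : ∀ i, ev (fun q : Ix n d => if q.2 = sj d i₀ then 0 else c q) t' i =
      - c (i, sj d i₀) := by
    intro i
    have h9 : ev c t' i = 0 := congrFun h3 i
    have h10 : ev (fun q : Ix n d => if q.2 = sj d i₀ then 0 else c q) t' i =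
        ev c t' i - c (i, sj d i₀) := by
      unfold ev
      rw [← Finset.add_sum_erase _ _ (Finset.mem_univ (sj d i₀)),
        ← Finset.add_sum_erase _ (fun s : Sym (Fin n) d =>
          c (i, s) * ((s : Multiset (Fin n)).map t').prod) (Finset.mem_univ (sj d i₀))]
      rw [prod_sj, h4, one_pow]
      simp only [if_true, zero_add, mul_one, add_sub_cancel_left]
      refine Finset.sum_congr rfl fun s hs => ?_
      rw [if_neg (Finset.ne_of_mem_erase hs)]
    rw [h10, h9, zero_sub]
  unfold psi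
  rw [h8]
  dsimp only
  by_cases h : q.2 = sj d i₀
  · rw [if_pos h, if_pos h, ← h]
    ring
  · rw [if_neg h, if_neg h]
    ring

/-- pseudo division -/
theorem pdiv {R : Type} [CommRing R] [IsDomain R] (g : Polynomial R) (hg : g ≠ 0) :
    ∀ (N : ℕ) (f : Polynomial R), f.natDegree < N → ∃ (s : R) (A r : Polynomial R), s ≠ 0 ∧
      Polynomial.C s * f = A * g + r ∧ r.degree < g.degree := by
  intro N
  induction N with
  | zero => intro f hf; omega
  | succ N ih =>
    intro f hf
    by_cases h1 : f.degree < g.degree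
    · exact ⟨1, 0, f, one_ne_zero, by simp, h1⟩
    have h1' : g.degree ≤ f.degree := not_lt.1 h1
    have hf0 : f ≠ 0 := by
      rintro rfl
      rw [Polynomial.degree_zero, le_bot_iff, Polynomial.degree_eq_bot] at h1'
      exact hg h1'
    have hnd : g.natDegree ≤ f.natDegree := Polynomial.natDegree_le_natDegree h1'
    have hlg : g.leadingCoeff ≠ 0 := Polynomial.leadingCoeff_ne_zero.2 hg
    have hlf : f.leadingCoeff ≠ 0 := Polynomial.leadingCoeff_ne_zero.2 hf0
    set f' := Polynomial.C g.leadingCoeff * f -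
      Polynomial.C f.leadingCoeff * Polynomial.X ^ (f.natDegree - g.natDegree) * g with hf'
    have hd1 : (Polynomial.C g.leadingCoeff * f).natDegree = f.natDegree :=
      Polynomial.natDegree_C_mul hlg
    have hd2 : (Polynomial.C f.leadingCoeff *
        Polynomial.X ^ (f.natDegree - g.natDegree) * g).natDegree = f.natDegree := by
      rw [mul_assoc, Polynomial.natDegree_C_mul hlf, Polynomial.natDegree_mul
        (pow_ne_zero _ Polynomial.X_ne_zero) hg, Polynomial.natDegree_X_pow]
      omega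
    by_cases hf'0 : f' = 0
    · refine ⟨g.leadingCoeff, Polynomial.C f.leadingCoeff *
        Polynomial.X ^ (f.natDegree - g.natDegree), 0, hlg, ?_, ?_⟩
      · rw [add_zero]
        exact sub_eq_zero.1 hf'0
      · rw [Polynomial.degree_zero, bot_lt_iff_ne_bot, Ne, Polynomial.degree_eq_bot]
        exact hg
    by_cases hfd : f.natDegree = 0
    · exfalso
      have hgd : g.natDegree = 0 := by omega
      obtain ⟨a, ha⟩ := Polynomial.natDegree_eq_zero.1 hfd
      obtain ⟨b, hb⟩ := Polynomial.natDegree_eq_zero.1 hgd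
      apply hf'0
      rw [hf', ← ha, ← hb]
      simp [mul_comm]
    have hlt : f'.natDegree < f.natDegree := by
      rw [hf']
      have hA : (Polynomial.C g.leadingCoeff * f) ≠ 0 :=
        mul_ne_zero (by simpa using hg) hf0
      have hB : (Polynomial.C f.leadingCoeff *
        Polynomial.X ^ (f.natDegree - g.natDegree) * g) ≠ 0 :=
        mul_ne_zero (mul_ne_zero (by simpa using hf0) (pow_ne_zero _ Polynomial.X_ne_zero)) hg
      have h3 : (Polynomial.C g.leadingCoeff * f -
        Polynomial.C f.leadingCoeff * Polynomial.X ^ (f.natDegree - g.natDegree) * g).degree <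
          (Polynomial.C g.leadingCoeff * f).degree := by
        apply Polynomial.degree_sub_lt_left
        · rw [Polynomial.degree_eq_natDegree hA, Polynomial.degree_eq_natDegree hB, hd1, hd2]
        · exact hA
        · rw [Polynomial.leadingCoeff_mul, Polynomial.leadingCoeff_mul,
            Polynomial.leadingCoeff_mul, Polynomial.leadingCoeff_C, Polynomial.leadingCoeff_C,
            Polynomial.leadingCoeff_X_pow, mul_one, mul_comm]
      have h4 := Polynomial.natDegree_lt_natDegree hf'0 h3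
      rwa [hd1] at h4
    obtain ⟨s, A, r, hs, hsr, hr⟩ := ih f' (by omega)
    refine ⟨s * g.leadingCoeff, A + Polynomial.C s * (Polynomial.C f.leadingCoeff *
      Polynomial.X ^ (f.natDegree - g.natDegree)), r, mul_ne_zero hs hlg, ?_, hr⟩
    rw [hf'] at hsr
    rw [Polynomial.C_mul]
    linear_combination hsr

/-- single out one variable -/
def ee (n d : ℕ) (k : Type) [Field k] (q₀ : Ix n d) : MvPolynomial (Ix n d) k ≃ₐ[k]
    Polynomial (MvPolynomial {q : Ix n d // q ≠ q₀} k) :=
  (renameEquiv k (Equiv.optionSubtypeNe q₀).symm).trans (optionEquivLeft k _)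

theorem ee_rename (q₀ : Ix n d) (s : MvPolynomial {q : Ix n d // q ≠ q₀} k) :
    ee n d k q₀ (rename Subtype.val s) = Polynomial.C s := by
  unfold ee
  rw [AlgEquiv.trans_apply, renameEquiv_apply, rename_rename]
  have h1 : ((Equiv.optionSubtypeNe q₀).symm ∘ Subtype.val : {q : Ix n d // q ≠ q₀} → _) =
      some := by
    funext q
    simpa using q.2
  rw [h1]
  induction s using MvPolynomial.induction_on with
  | C a => simp
  | add p q hp hq => rw [map_add, map_add, hp, hq, Polynomial.C_add]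
  | mul_X p i hp => rw [map_mul, map_mul, hp, rename_X, optionEquivLeft_X_some, Polynomial.C_mul]

theorem t_INC (n d : ℕ) (k : Type) [Field k] [IsAlgClosed k] [CharZero k] (hn : 3 ≤ n)
    (_hd : 2 ≤ d) : S_INCA n d k → S_INC n d k := by
  intro hA
  have hinf : Infinite k := inferInstance
  set i₀ : Fin n := ⟨0, by omega⟩ with hi₀
  set q₀ : Ix n d := (i₀, sj d i₀) with hq₀
  have hA' : ∀ Q : MvPolynomial (Ix n d) k, q₀ ∉ Q.vars → F n d k i₀ Q = 0 → Q = 0 := by
    intro Q h1 h2
    refine hA i₀ (sj d i₀) ?_ Q h1 ((van i₀ Q).1 h2)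
    exact Sym.coe_replicate ..
  set I : Ideal (MvPolynomial (Ix n d) k) := RingHom.ker (F n d k i₀) with hI
  have hprime : I.IsPrime := RingHom.ker_isPrime _
  obtain ⟨P0, hP0, hP0'⟩ := nonzero (k := k) (d := d) i₀
  classical
  have hex : ∃ N : ℕ, ∃ f : MvPolynomial (Ix n d) k, f ≠ 0 ∧ f ∈ I ∧
      (ee n d k q₀ f).natDegree = N := ⟨_, P0, hP0, hP0', rfl⟩
  set N := Nat.find hex with hN
  obtain ⟨f, hf0, hfI, hfN⟩ := Nat.find_spec hex
  have hmin : ∀ g : MvPolynomial (Ix n d) k, g ≠ 0 → g ∈ I →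
      (ee n d k q₀ f).natDegree ≤ (ee n d k q₀ g).natDegree := by
    intro g hg hgI
    rw [hfN]
    exact Nat.find_min' hex ⟨g, hg, hgI, rfl⟩
  -- a prime factor in I
  obtain ⟨Θ, hΘp, hΘI, hΘf⟩ : ∃ Θ : MvPolynomial (Ix n d) k, Prime Θ ∧ Θ ∈ I ∧ Θ ∣ f := by
    obtain ⟨fs, hfs, u, hu⟩ := UniqueFactorizationMonoid.exists_prime_factors f hf0
    have h1 : fs.prod ∈ I := by
      have h2 : fs.prod * u ∈ I := by rw [hu]; exact hfI
      rcases hprime.mem_or_mem h2 with h3 | h3
      · exact h3
      · exact absurd (Ideal.eq_top_of_isUnit_mem _ h3 u.isUnit) hprime.ne_top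
    obtain ⟨p, hp, hpI⟩ := (hprime.multiset_prod_mem_iff_exists_mem fs).1 h1
    refine ⟨p, hfs p hp, hpI, ?_⟩
    rw [← hu]
    exact (Multiset.dvd_prod hp).mul_right _
  have hΘ0 : Θ ≠ 0 := hΘp.ne_zero
  have hΘmin : ∀ g : MvPolynomial (Ix n d) k, g ≠ 0 → g ∈ I →
      (ee n d k q₀ Θ).natDegree ≤ (ee n d k q₀ g).natDegree := by
    intro g hg hgI
    refine le_trans ?_ (hmin g hg hgI)
    refine Polynomial.natDegree_le_of_dvd ((map_dvd_iff (ee n d k q₀)).2 hΘf) ?_
    rwa [Ne, map_eq_zero_iff _ (ee n d k q₀).injective]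
  have heΘ0 : ee n d k q₀ Θ ≠ 0 := by
    rwa [Ne, map_eq_zero_iff _ (ee n d k q₀).injective]
  have hdiv : ∀ P ∈ I, Θ ∣ P := by
    intro P hP
    obtain ⟨s, A, r, hs, hsr, hr⟩ := pdiv (ee n d k q₀ Θ) heΘ0 _ (ee n d k q₀ P)
      (Nat.lt_succ_self _)
    have hsr' : rename Subtype.val s * P = (ee n d k q₀).symm A * Θ + (ee n d k q₀).symm r := by
      apply (ee n d k q₀).injective
      rw [map_mul, map_add, map_mul, ee_rename, AlgEquiv.apply_symm_apply,
        AlgEquiv.apply_symm_apply, hsr]
    have hrI : (ee n d k q₀).symm r ∈ I := by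
      have h1 : (ee n d k q₀).symm r = rename Subtype.val s * P - (ee n d k q₀).symm A * Θ := by
        rw [hsr']; ring
      rw [h1]
      exact I.sub_mem (I.mul_mem_left _ hP) (I.mul_mem_left _ hΘI)
    have hr0 : r = 0 := by
      by_contra hr0
      have h1 := Polynomial.natDegree_lt_natDegree hr0 hr
      have h2 := hΘmin ((ee n d k q₀).symm r) (by
        rwa [Ne, map_eq_zero_iff _ (ee n d k q₀).symm.injective]) hrI
      rw [AlgEquiv.apply_symm_apply] at h2
      omega
    rw [hr0, map_zero, add_zero] at hsr'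
    have h3 : Θ ∣ rename Subtype.val s * P := ⟨(ee n d k q₀).symm A, by rw [hsr']; ring⟩
    rcases hΘp.dvd_or_dvd h3 with h4 | h4
    · exfalso
      have h5 : (rename Subtype.val s : MvPolynomial (Ix n d) k) ∈ I := by
        obtain ⟨w, hw⟩ := h4
        rw [hw]
        exact I.mul_mem_right _ hΘI
      have h6 := hA' (rename Subtype.val s) (by
        intro h7
        obtain ⟨i, _, hi⟩ := mem_vars_rename _ _ h7
        exact i.2 hi) h5
      rw [map_eq_zero_iff _ (rename_injective _ Subtype.val_injective)] at h6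
      exact hs h6
    · exact h4
  refine ⟨Θ, hΘp.irreducible, fun P hP => hdiv P ((van i₀ P).2 hP), ?_⟩
  intro κ _ _ c x hx hc
  obtain ⟨j, hj⟩ := Function.ne_iff.1 hx
  exact L1 c x j hj hc Θ (key i₀ j Θ hΘI)

end

end Run7.h234.MD
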