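import Pool.Agent.Run7.h234.MD.INC

/-!
Piece INCA of the project MD (helper342): there is no relation between the coordinates of
degenerate vectors which does not involve the coordinate `(i₀, x₀ ^ d)`.
-/

namespace Run7.h234.MD

open MvPolynomial Run7.h342.MD

noncomputable section

variable {k : Type} [Field k]

theorem coeff_add_of_mem {σ : Type} {i : σ} {p : MvPolynomial σ k} {m : σ →₀ ℕ}
    (h : coeff m (pderiv i p) ≠ 0) : coeff (m + Finsupp.single i 1) p ≠ 0 := by
  rw [coeff_pderiv] at h
  exact left_ne_zero_of_mul h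

theorem notMem_vars_iff {σ : Type} {i : σ} {p : MvPolynomial σ k} :
    i ∉ p.vars ↔ ∀ m, coeff m p ≠ 0 → m i = 0 := by
  classical
  rw [mem_vars_iff_mem_support]
  push Not
  constructor
  · intro h m hm
    have h1 := h m (mem_support_iff.2 hm)
    exact Finsupp.notMem_support_iff.1 h1
  · intro h m hm
    exact Finsupp.notMem_support_iff.2 (h m (mem_support_iff.1 hm))

theorem notMem_vars_pderiv {σ : Type} {i j : σ} {p : MvPolynomial σ k} (h : j ∉ p.vars) :
    j ∉ (pderiv i p).vars := by
  rw [notMem_vars_iff] at h ⊢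
  intro m hm
  have h1 := h _ (coeff_add_of_mem hm)
  rw [Finsupp.add_apply] at h1
  omega

theorem notMem_vars_of_pderiv [CharZero k] {σ : Type} {i : σ} {p : MvPolynomial σ k}
    (h : pderiv i p = 0) : i ∉ p.vars := by
  classical
  rw [notMem_vars_iff]
  intro m hm
  by_contra hmi
  have h1 : m = (m - Finsupp.single i 1) + Finsupp.single i 1 := by
    rw [tsub_add_cancel_of_le]
    rw [Finsupp.single_le_iff]
    omega
  have h2 := coeff_pderiv (i := i) p (m - Finsupp.single i 1)
  rw [h, coeff_zero, ← h1] at h2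
  rcases mul_eq_zero.1 h2.symm with h3 | h3
  · exact hm h3
  · exact absurd h3 (Nat.cast_add_one_ne_zero _)

theorem totalDegree_pderiv_lt {σ : Type} {i : σ} {p : MvPolynomial σ k}
    (h : pderiv i p ≠ 0) : (pderiv i p).totalDegree < p.totalDegree := by
  classical
  obtain ⟨m, hm, hm'⟩ : ∃ m ∈ (pderiv i p).support,
      (pderiv i p).totalDegree = m.sum fun _ e => e := by
    obtain ⟨m, hm, hm'⟩ := Finset.exists_mem_eq_sup (pderiv i p).support
      (support_nonempty.2 h) (fun s => s.sum fun _ e => e)
    exact ⟨m, hm, hm'⟩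
  have h1 := coeff_add_of_mem (mem_support_iff.1 hm)
  have h2 := le_totalDegree (mem_support_iff.2 h1)
  have h3 : ((m + Finsupp.single i 1).sum fun _ e => e) = (m.sum fun _ e => e) + 1 := by
    rw [Finsupp.sum_add_index' (fun _ => rfl) (fun _ _ _ => rfl), Finsupp.sum_single_index rfl]
  rw [hm']
  omega

theorem chain {σ τ : Type} [Fintype σ] (g : σ → MvPolynomial τ k) (j : τ)
    (Q : MvPolynomial σ k) : pderiv j (aeval g Q) =
      ∑ q, aeval g (pderiv q Q) * pderiv j (g q) := by
  classical
  induction Q using MvPolynomial.induction_on with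
  | C a =>
    rw [algHom_C, algebraMap_eq, pderiv_C]
    symm
    refine Finset.sum_eq_zero fun q _ => ?_
    rw [pderiv_C, map_zero, zero_mul]
  | add p q hp hq =>
    rw [map_add, map_add, hp, hq, ← Finset.sum_add_distrib]
    refine Finset.sum_congr rfl fun q _ => ?_
    rw [map_add, map_add, add_mul]
  | mul_X p i hp =>
    rw [map_mul, aeval_X, pderiv_mul, hp]
    have h1 : ∀ q, aeval g (pderiv q (p * X i)) * pderiv j (g q) =
        aeval g (pderiv q p) * pderiv j (g q) * g i +
          (if q = i then aeval g p * pderiv j (g i) else 0) := by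
      intro q
      rw [pderiv_mul, map_add, map_mul, map_mul, aeval_X]
      split_ifs with h
      · subst h
        rw [pderiv_X_self, map_one]
        ring
      · rw [pderiv_X_of_ne (fun h' => h h'.symm), map_zero]
        ring
    rw [Finset.sum_congr rfl fun q _ => h1 q, Finset.sum_add_distrib, Finset.sum_ite_eq',
      if_pos (Finset.mem_univ _), Finset.sum_mul]

variable {n d : ℕ}

/-- generic value -/
def gev (n d : ℕ) (k : Type) [Field k] (i : Fin n) : MvPolynomial (Ix n d ⊕ Fin n) k :=
  ev (fun q => X (Sum.inl q)) (fun i => X (Sum.inr i)) i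

/-- the monomial `x₀ ^ (d-1) x_i` -/
def s1 (hd : 2 ≤ d) (i₀ i : Fin n) : Sym (Fin n) d :=
  ⟨i ::ₘ Multiset.replicate (d - 1) i₀, by
    rw [Multiset.card_cons, Multiset.card_replicate]; omega⟩

theorem pderiv_gp (i₀ j : Fin n) (hj : j ≠ i₀) (q : Ix n d) :
    pderiv (Sum.inr j) (gp n d k i₀ q) =
      - (if q.2 = sj d i₀ then pderiv (Sum.inr j) (gev n d k q.1) else 0) := by
  unfold gp psi gev
  rw [map_sub, pderiv_mul, pderiv_pow, pderiv_X_of_ne, pderiv_X_of_ne]
  · split_ifs
    · ring
    · rw [map_zero]
      ring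
  · exact Sum.inl_ne_inr
  · exact fun h => hj (Sum.inr_injective h).symm

theorem step (hd : 2 ≤ d) (i₀ : Fin n) (Q : MvPolynomial (Ix n d) k)
    (hQ : (i₀, sj d i₀) ∉ Q.vars) (hF : F n d k i₀ Q = 0) (i : Fin n) :
    F n d k i₀ (pderiv (i, sj d i₀) Q) = 0 := by
  classical
  set M : Matrix (Fin n) (Fin n) (MvPolynomial (Ix n d ⊕ Fin n) k) := fun i j =>
    if j = i₀ then (if i = j then 1 else 0) else pderiv (Sum.inr j) (gev n d k i) with hM
  set v : Fin n → MvPolynomial (Ix n d ⊕ Fin n) k := fun i =>
    F n d k i₀ (pderiv (i, sj d i₀) Q) with hv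
  have h1 : Matrix.vecMul v M = 0 := by
    funext j
    rw [Pi.zero_apply]
    change ∑ i, v i * M i j = 0
    by_cases hj : j = i₀
    · refine Finset.sum_eq_zero fun i _ => ?_
      rw [hM]
      dsimp only
      rw [if_pos hj]
      split_ifs with h
      · rw [hv]
        dsimp only
        rw [h, hj, pderiv_eq_zero_of_notMem_vars hQ, map_zero, zero_mul]
      · rw [mul_zero]
    · have h2 := chain (gp n d k i₀) (Sum.inr j) Q
      change pderiv (Sum.inr j) (F n d k i₀ Q) = _ at h2
      rw [hF, map_zero, Fintype.sum_prod_type] at h2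
      have h3 : ∀ i : Fin n, ∑ s : Sym (Fin n) d, aeval (gp n d k i₀) (pderiv (i, s) Q) *
          pderiv (Sum.inr j) (gp n d k i₀ (i, s)) = - (v i * M i j) := by
        intro i
        rw [Finset.sum_eq_single (sj d i₀)]
        · rw [pderiv_gp i₀ j hj, if_pos rfl, hM, hv]
          dsimp only
          rw [if_neg hj, mul_neg]
          rfl
        · intro s _ hs
          rw [pderiv_gp i₀ j hj, if_neg hs, neg_zero, mul_zero]
        · intro h
          exact absurd (Finset.mem_univ _) h
      rw [Finset.sum_congr rfl fun i _ => h3 i, Finset.sum_neg_distrib] at h2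
      exact neg_eq_zero.1 h2.symm
  set w : Ix n d ⊕ Fin n → k := Sum.elim
    (fun q => if q.1 ≠ i₀ ∧ q.2 = s1 hd i₀ q.1 then 1 else 0) (fun j => if j = i₀ then 1 else 0)
    with hw
  have h2 : M.map (eval w) = 1 := by
    ext a b
    rw [Matrix.map_apply, Matrix.one_apply, hM]
    dsimp only
    by_cases hb : b = i₀
    · rw [if_pos hb]
      split_ifs
      · rw [map_one]
      · rw [map_zero]
    · rw [if_neg hb]
      unfold gev ev
      rw [map_sum, map_sum]
      have h3 : ∀ s : Sym (Fin n) d, eval w (pderiv (Sum.inr b)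
          (X (Sum.inl (a, s)) * ((s : Multiset (Fin n)).map
            (fun i => (X (Sum.inr i) : MvPolynomial (Ix n d ⊕ Fin n) k))).prod)) =
          w (Sum.inl (a, s)) * eval w (pderiv (Sum.inr b) ((s : Multiset (Fin n)).map
            (fun i => (X (Sum.inr i) : MvPolynomial (Ix n d ⊕ Fin n) k))).prod) := by
        intro s
        rw [pderiv_mul, pderiv_X_of_ne Sum.inl_ne_inr, zero_mul, zero_add, map_mul,
          eval_X]
      rw [Finset.sum_congr rfl fun s _ => h3 s]
      by_cases ha : a = i₀
      · rw [if_neg (fun h => hb (h.symm.trans ha))]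
        refine Finset.sum_eq_zero fun s _ => ?_
        rw [hw]
        simp only [Sum.elim_inl, ha, ne_eq, not_true_eq_false, false_and, if_false, zero_mul]
      · rw [Finset.sum_eq_single (s1 hd i₀ a)]
        · have h4 : w (Sum.inl (a, s1 hd i₀ a)) = 1 := by
            rw [hw]
            exact if_pos ⟨ha, rfl⟩
          have h5 : w (Sum.inr i₀) = 1 := by
            rw [hw]
            simp only [Sum.elim_inr, if_true]
          rw [h4, one_mul]
          unfold s1
          rw [Sym.coe_mk, Multiset.map_cons, Multiset.prod_cons, Multiset.map_replicate,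
            Multiset.prod_replicate, pderiv_mul, pderiv_pow,
            pderiv_X_of_ne (i := Sum.inr b) (j := Sum.inr i₀)
              (fun h => hb (Sum.inr_injective h).symm), mul_zero, mul_zero, add_zero, map_mul,
            map_pow, eval_X, h5, one_pow, mul_one]
          split_ifs with h
          · rw [h, pderiv_X_self, map_one]
          · rw [pderiv_X_of_ne (fun h' => h (Sum.inr_injective h')), map_zero]
        · intro s _ hs
          rw [hw]
          simp only [Sum.elim_inl]
          rw [if_neg (fun h => hs h.2), zero_mul]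
        · intro h
          exact absurd (Finset.mem_univ _) h
  have h3 : M.det ≠ 0 := by
    intro h
    have h4 := congrArg (eval w) h
    rw [RingHom.map_det, map_zero] at h4
    change (M.map (eval w)).det = 0 at h4
    rw [h2, Matrix.det_one] at h4
    exact one_ne_zero h4
  exact congrFun (Matrix.eq_zero_of_vecMul_eq_zero h3 h1) i

theorem inca_aux [CharZero k] (hd : 2 ≤ d) (i₀ : Fin n) : ∀ (N : ℕ) (Q : MvPolynomial (Ix n d) k),
    Q.totalDegree < N → (i₀, sj d i₀) ∉ Q.vars → F n d k i₀ Q = 0 → Q = 0 := by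
  classical
  intro N
  induction N with
  | zero => intro Q h; omega
  | succ N ih =>
    intro Q hN hQ hF
    have h1 : ∀ i, pderiv (i, sj d i₀) Q = 0 := by
      intro i
      by_contra h
      exact h (ih _ (by have := totalDegree_pderiv_lt h; omega) (notMem_vars_pderiv hQ)
        (step hd i₀ Q hQ hF i))
    have h2 : ∀ i, (i, sj d i₀) ∉ Q.vars := fun i => notMem_vars_of_pderiv (h1 i)
    apply MvPolynomial.funext
    intro b
    rw [map_zero]
    have h3 := congrArg (eval (Sum.elim b (fun j => if j = i₀ then 1 else 0))) hF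
    unfold F at h3
    rw [eval_aeval, map_zero] at h3
    rw [← h3]
    refine eval₂Hom_congr' rfl ?_ rfl
    intro q hq _
    unfold gp
    rw [map_psi]
    unfold psi
    have h4 : q.2 ≠ sj d i₀ := by
      intro h5
      apply h2 q.1
      rw [← h5]
      exact hq
    rw [if_neg h4]
    simp

theorem t_INCA (n d : ℕ) (k : Type) [Field k] [IsAlgClosed k] [CharZero k] (_hn : 3 ≤ n)
    (hd : 2 ≤ d) : S_INCA n d k := by
  intro i₀ s₀ hs₀ Q hQ hF
  have h1 : s₀ = sj d i₀ := by
    apply Sym.ext
    rw [hs₀]
    exact (Sym.coe_replicate ..).symm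
  subst h1
  exact inca_aux hd i₀ _ Q (Nat.lt_succ_self _) hQ ((van i₀ Q).2 hF)

end

end Run7.h234.MD
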